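import Pool.Agent.Helper82.CN.St

/-!
# CN module OVP: from balanced maps to permutations
-/

set_option autoImplicit false

namespace Pool.Agent.Helper80.CN

open Finset Pool.Agent.Helper82.CN

private theorem mem_Bal_OVP {n k : ℕ} {c : Fin n → Fin k} :
    c ∈ Bal n k ↔ ∀ i : Fin k, Fintype.card {v // c v = i} = sz n k i := by
  unfold Bal
  rw [mem_filter]
  simp only [mem_univ, true_and]
  refine forall_congr' fun i => ?_
  rw [Fintype.card_subtype]

/-- two maps with the same class sizes differ by a permutation -/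
private theorem exists_perm_OVP {n k : ℕ} {c c' : Fin n → Fin k} (hc : c ∈ Bal n k)
    (hc' : c' ∈ Bal n k) : ∃ π : Equiv.Perm (Fin n), c ∘ π = c' := by
  rw [mem_Bal_OVP] at hc hc'
  have e : ∀ i : Fin k, {v // c' v = i} ≃ {v // c v = i} := fun i =>
    Fintype.equivOfCardEq (by rw [hc i, hc' i])
  refine ⟨(Equiv.sigmaFiberEquiv c').symm.trans
    ((Equiv.sigmaCongrRight e).trans (Equiv.sigmaFiberEquiv c)), ?_⟩
  funext v
  exact (e (c' v) ⟨v, rfl⟩).2

private theorem comp_mem_OVP {n k : ℕ} {c : Fin n → Fin k} (hc : c ∈ Bal n k)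
    (π : Equiv.Perm (Fin n)) : c ∘ π ∈ Bal n k := by
  rw [mem_Bal_OVP] at hc ⊢
  intro i
  rw [← hc i]
  exact Fintype.card_congr (π.subtypeEquiv fun v => Iff.rfl)

theorem tOVP : StOvp := by
  classical
  intro n k c g hc
  set N : ℕ := ((univ : Finset (Equiv.Perm (Fin n))).filter
    (fun π : Equiv.Perm (Fin n) => c ∘ ⇑π = c)).card with hN
  have hfib : ∀ c' ∈ Bal n k,
      ((univ : Finset (Equiv.Perm (Fin n))).filter
        (fun π : Equiv.Perm (Fin n) => c ∘ ⇑π = c')).card = N := by
    intro c' hc'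
    obtain ⟨π0, h0⟩ := exists_perm_OVP hc hc'
    symm
    refine Finset.card_equiv (Equiv.mulRight π0) fun π => ?_
    simp only [mem_filter, mem_univ, true_and, Equiv.coe_mulRight, Equiv.Perm.coe_mul]
    rw [← h0, ← Function.comp_assoc]
    constructor
    · intro h
      rw [h]
    · intro h
      exact π0.surjective.injective_comp_right h
  have hsum : ∀ F : (Fin n → Fin k) → ℝ,
      ∑ π : Equiv.Perm (Fin n), F (c ∘ π) = N * ∑ c' ∈ Bal n k, F c' := by
    intro F
    rw [← Finset.sum_fiberwise_of_maps_to (t := Bal n k)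
      (g := fun π : Equiv.Perm (Fin n) => c ∘ π) (fun π _ => comp_mem_OVP hc π), Finset.mul_sum]
    refine Finset.sum_congr rfl fun c' hc' => ?_
    rw [← hfib c' hc', ← nsmul_eq_mul, ← Finset.sum_const]
    refine Finset.sum_congr rfl fun π hπ => ?_
    rw [(mem_filter.1 hπ).2]
  have hcard : (n.factorial : ℝ) = N * (Bal n k).card := by
    have h := hsum fun _ => 1
    simpa [Fintype.card_perm] using h
  rw [hsum g, hcard]
  ring

end Pool.Agent.Helper80.CN
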